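import Pool.Agent.V5helper39.WQ.Stm

set_option autoImplicit false

open Finset

namespace Pool.Agent.V5helper17.WQ

/-- sums of between `1` and `j + 1` elements of `K` -/
def T {R : Type} [CommRing R] [DecidableEq R] (K : Finset R) : ℕ → Finset R
  | 0 => K
  | j + 1 => T K j ∪ Finset.image₂ (fun x y => x + y) (T K j) K

theorem T_inv {R : Type} [CommRing R] [DecidableEq R] (K : Finset R)
    (hmul : ∀ u ∈ K, ∀ v ∈ K, u * v ∈ K) : ∀ j, ∀ v ∈ K, ∀ x ∈ T K j, v * x ∈ T K j := by
  intro j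
  induction j with
  | zero => intro v hv x hx; exact hmul v hv x hx
  | succ j ih =>
    intro v hv x hx
    simp only [T, Finset.mem_union, Finset.mem_image₂] at hx ⊢
    rcases hx with hx | ⟨a, ha, b, hb, rfl⟩
    · exact Or.inl (ih v hv x hx)
    · exact Or.inr ⟨v * a, ih v hv a ha, v * b, hmul v hv b hb, by ring⟩

theorem T_ne {R : Type} [CommRing R] [DecidableEq R] (K : Finset R) (h1 : (1 : R) ∈ K) :
    ∀ j, (1 : R) ∈ T K j := by
  intro j
  induction j with
  | zero => exact h1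
  | succ j ih => simp only [T, Finset.mem_union]; exact Or.inl ih

theorem grow {R : Type} [CommRing R] [Fintype R] [DecidableEq R] (K : Finset R) (h1 : (1 : R) ∈ K)
    (hmul : ∀ u ∈ K, ∀ v ∈ K, u * v ∈ K)
    (hinv : ∀ u ∈ K, ∃ v ∈ K, v * u = 1)
    (hfree : ∀ u ∈ K, ∀ v ∈ K, ∀ y : R, y ≠ 0 → u * y = v * y → u = v)
    (hgen : ∀ s : Finset R, s.Nonempty → (∀ x ∈ s, x + 1 ∈ s) → s = Finset.univ) :
    ∀ j, T K j = Finset.univ ∨ ((0 : R) ∉ T K j ∧ (j + 1) * K.card ≤ (T K j).card) ∨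
      ((0 : R) ∈ T K j ∧ j * K.card + 1 ≤ (T K j).card) := by
  intro j
  have hKpos : 1 ≤ K.card := Finset.card_pos.mpr ⟨1, h1⟩
  induction j with
  | zero =>
    right
    by_cases h0 : (0 : R) ∈ T K 0
    · right; refine ⟨h0, ?_⟩; simpa [T] using hKpos
    · left; refine ⟨h0, ?_⟩; simp [T]
  | succ j ih =>
    have hsub : T K j ⊆ T K (j + 1) := by
      intro x hx; simp only [T, Finset.mem_union]; exact Or.inl hx
    rcases ih with ih | ih
    · left
      apply Finset.eq_univ_of_forall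
      intro x
      apply hsub
      rw [ih]; exact Finset.mem_univ x
    by_cases hstop : T K (j + 1) = T K j
    · left
      rw [hstop]
      apply hgen
      · exact ⟨1, T_ne K h1 j⟩
      · intro x hx
        rw [← hstop]
        simp only [T, Finset.mem_union, Finset.mem_image₂]
        exact Or.inr ⟨x, hx, 1, h1, rfl⟩
    right
    have hcard : (T K (j + 1)).card = (T K (j + 1) \ T K j).card + (T K j).card :=
      (Finset.card_sdiff_add_card_eq_card hsub).symm
    by_cases hnz : ∃ y ∈ T K (j + 1) \ T K j, y ≠ 0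
    · obtain ⟨y, hy, hy0⟩ := hnz
      have hle : K.card ≤ (T K (j + 1) \ T K j).card := by
        apply Finset.card_le_card_of_injOn (fun u => u * y)
        · intro u hu
          have hu' : u ∈ K := hu
          rw [Finset.mem_sdiff] at hy
          rw [Finset.mem_coe, Finset.mem_sdiff]
          refine ⟨T_inv K hmul (j + 1) u hu' y hy.1, ?_⟩
          intro hc
          obtain ⟨v, hv, hvu⟩ := hinv u hu'
          have := T_inv K hmul j v hv _ hc
          rw [← mul_assoc, hvu, one_mul] at this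
          exact hy.2 this
        · intro u hu v hv huv
          exact hfree u hu v hv y hy0 huv
      by_cases h0 : (0 : R) ∈ T K (j + 1)
      · right
        refine ⟨h0, ?_⟩
        rcases ih with ⟨_, ih⟩ | ⟨_, ih⟩
        · rw [hcard]; nlinarith
        · rw [hcard]; nlinarith
      · left
        refine ⟨h0, ?_⟩
        rcases ih with ⟨_, ih⟩ | ⟨h0', ih⟩
        · rw [hcard]; nlinarith
        · exact absurd (hsub h0') h0
    · push Not at hnz
      have hne : (T K (j + 1) \ T K j).Nonempty := by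
        rw [Finset.nonempty_iff_ne_empty]
        intro he
        rw [Finset.sdiff_eq_empty_iff_subset] at he
        exact hstop (Finset.Subset.antisymm he hsub)
      obtain ⟨y, hy⟩ := hne
      have hy0 := hnz y hy
      subst hy0
      rw [Finset.mem_sdiff] at hy
      right
      refine ⟨hy.1, ?_⟩
      have h1le : 1 ≤ (T K (j + 1) \ T K j).card := Finset.card_pos.mpr ⟨0, Finset.mem_sdiff.mpr hy⟩
      rcases ih with ⟨_, ih⟩ | ⟨h0', ih⟩
      · rw [hcard]; nlinarith
      · exact absurd h0' hy.2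

theorem T_rep {R : Type} [CommRing R] [DecidableEq R] (K : Finset R) (k : ℕ) (hk : 1 ≤ k) (Q : ℕ → Prop)
    (f : ℕ → R) (hf0 : f 0 = 0) (hK : ∀ x ∈ K, ∃ r : ℕ, Q r ∧ f r ^ k = x) :
    ∀ j, ∀ x ∈ T K j, ∃ r : Fin (j + 1) → ℕ, Q (r 0) ∧ ∑ i, f (r i) ^ k = x := by
  intro j
  induction j with
  | zero =>
    intro x hx
    obtain ⟨r, hr, hrx⟩ := hK x hx
    exact ⟨fun _ => r, hr, by simpa using hrx⟩
  | succ j ih =>
    intro x hx
    simp only [T, Finset.mem_union, Finset.mem_image₂] at hx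
    rcases hx with hx | ⟨a, ha, b, hb, rfl⟩
    · obtain ⟨r, hr, hrx⟩ := ih x hx
      refine ⟨Fin.snoc r 0, ?_, ?_⟩
      · have : (Fin.snoc r 0 : Fin (j + 1 + 1) → ℕ) 0 = r 0 := by
          have h := Fin.snoc_castSucc (α := fun _ => ℕ) (x := 0) (p := r) (i := 0)
          simpa using h
        rw [this]; exact hr
      · rw [Fin.sum_univ_castSucc]
        simp only [Fin.snoc_castSucc, Fin.snoc_last, hf0]
        rw [hrx, zero_pow (by omega), add_zero]
    · obtain ⟨r, hr, hrx⟩ := ih a ha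
      obtain ⟨s, _, hsx⟩ := hK b hb
      refine ⟨Fin.snoc r s, ?_, ?_⟩
      · have : (Fin.snoc r s : Fin (j + 1 + 1) → ℕ) 0 = r 0 := by
          have h := Fin.snoc_castSucc (α := fun _ => ℕ) (x := s) (p := r) (i := 0)
          simpa using h
        rw [this]; exact hr
      · rw [Fin.sum_univ_castSucc]
        simp only [Fin.snoc_castSucc, Fin.snoc_last]
        rw [hrx, hsx]

/-- elements of `ZMod (p ^ (τ + 1))` which are not units are divisible by `p` -/
theorem dvd_of_not_unit (p τ : ℕ) (hp : p.Prime) (a : ZMod (p ^ (τ + 1))) (ha : ¬ IsUnit a) :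
    (p : ZMod (p ^ (τ + 1))) ∣ a := by
  haveI : NeZero (p ^ (τ + 1)) := ⟨pow_ne_zero _ hp.ne_zero⟩
  have h1 : ((a.val : ℕ) : ZMod (p ^ (τ + 1))) = a := ZMod.natCast_zmod_val a
  have h2 : ¬ Nat.Coprime a.val (p ^ (τ + 1)) := by
    rw [← ZMod.isUnit_iff_coprime, h1]; exact ha
  have h3 : p ∣ a.val := by
    by_contra h
    exact h2 (((Nat.Prime.coprime_iff_not_dvd hp).mpr h).symm.pow_right _)
  obtain ⟨c, hc⟩ := h3
  exact ⟨(c : ZMod (p ^ (τ + 1))), by rw [← h1, hc]; push_cast; ring⟩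

theorem gen_univ (n : ℕ) [NeZero n] (s : Finset (ZMod n)) (hs : s.Nonempty) (h : ∀ x ∈ s, x + 1 ∈ s) :
    s = Finset.univ := by
  obtain ⟨x, hx⟩ := hs
  have h1 : ∀ m : ℕ, x + m ∈ s := by
    intro m
    induction m with
    | zero => simpa using hx
    | succ m ih =>
      have := h _ ih
      push_cast
      rwa [← add_assoc]
  apply Finset.eq_univ_of_forall
  intro y
  have := h1 (y - x).val
  rwa [ZMod.natCast_zmod_val, add_sub_cancel] at this

theorem t_ORB : Pool.Agent.V5helper39.WQ.S_ORB := by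
  intro p τ k₀ n hp hp2 hpk hk₀
  haveI hne : NeZero (p ^ (τ + 1)) := ⟨pow_ne_zero _ hp.ne_zero⟩
  haveI : Fact p.Prime := ⟨hp⟩
  set k := p ^ τ * k₀ with hkdef
  have hk : 1 ≤ k := Nat.one_le_iff_ne_zero.mpr (Nat.mul_ne_zero (pow_ne_zero _ hp.ne_zero) (by omega))
  set R := ZMod (p ^ (τ + 1)) with hR
  have hp1 : 2 ≤ p := hp.two_le
  -- the units
  have htot : Fintype.card Rˣ = p ^ τ * (p - 1) := by
    rw [ZMod.card_units_eq_totient, Nat.totient_prime_pow hp (by omega)]
    simp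
  haveI hcyc : IsCyclic Rˣ := ZMod.isCyclic_units_of_prime_pow p hp hp2 (τ + 1)
  let K : Finset R := Finset.univ.image (fun u : Rˣ => ((u ^ k : Rˣ) : R))
  have hKmem : ∀ x : R, x ∈ K ↔ ∃ u : Rˣ, ((u ^ k : Rˣ) : R) = x := by
    intro x; simp [K]
  have h1 : (1 : R) ∈ K := (hKmem 1).mpr ⟨1, by simp⟩
  have hmul : ∀ u ∈ K, ∀ v ∈ K, u * v ∈ K := by
    intro u hu v hv
    obtain ⟨a, rfl⟩ := (hKmem u).mp hu
    obtain ⟨b, rfl⟩ := (hKmem v).mp hv
    exact (hKmem _).mpr ⟨a * b, by rw [mul_pow]; push_cast; rfl⟩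
  have hinv : ∀ u ∈ K, ∃ v ∈ K, v * u = 1 := by
    intro u hu
    obtain ⟨a, rfl⟩ := (hKmem u).mp hu
    refine ⟨((a⁻¹ ^ k : Rˣ) : R), (hKmem _).mpr ⟨a⁻¹, rfl⟩, ?_⟩
    rw [← Units.val_mul, ← mul_pow, inv_mul_cancel, one_pow, Units.val_one]
  have hpowp : ∀ a : Rˣ, (a ^ k) ^ (p - 1) = 1 := by
    intro a
    have h2 : k * (p - 1) = Fintype.card Rˣ * k₀ := by rw [htot, hkdef]; ring
    rw [← pow_mul, h2, pow_mul, pow_card_eq_one, one_pow]
  have hfree : ∀ u ∈ K, ∀ v ∈ K, ∀ y : R, y ≠ 0 → u * y = v * y → u = v := by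
    intro u hu v hv y hy huv
    obtain ⟨a, rfl⟩ := (hKmem u).mp hu
    obtain ⟨b, rfl⟩ := (hKmem v).mp hv
    by_contra hne'
    by_cases hun : IsUnit (((a ^ k : Rˣ) : R) - ((b ^ k : Rˣ) : R))
    · apply hy
      have h3 : (((a ^ k : Rˣ) : R) - ((b ^ k : Rˣ) : R)) * y = 0 := by rw [sub_mul, huv, sub_self]
      exact (hun.mul_right_eq_zero).mp h3
    · apply hne'
      have h4 := dvd_sub_pow_of_dvd_sub (dvd_of_not_unit p τ hp _ hun) τ
      have h5 : ((p : R) ^ (τ + 1)) = 0 := by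
        have := ZMod.natCast_self (p ^ (τ + 1))
        push_cast at this
        exact this
      rw [h5, zero_dvd_iff, sub_eq_zero] at h4
      have h6 : (a ^ k) ^ p ^ τ = (b ^ k) ^ p ^ τ := by
        apply Units.ext
        rw [Units.val_pow_eq_pow_val (a ^ k), Units.val_pow_eq_pow_val (b ^ k)]
        exact h4
      have h7 : (a ^ k / b ^ k) ^ p ^ τ = 1 := by rw [div_pow, h6, div_self']
      have h8 : (a ^ k / b ^ k) ^ (p - 1) = 1 := by rw [div_pow, hpowp, hpowp, div_self']
      have h9 : Nat.gcd (p ^ τ) (p - 1) = 1 := by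
        apply Nat.Coprime.pow_left
        rw [Nat.Prime.coprime_iff_not_dvd hp]
        intro hd
        have := Nat.le_of_dvd (by omega) hd
        omega
      have h10 : (a ^ k / b ^ k) ^ Nat.gcd (p ^ τ) (p - 1) = 1 := pow_gcd_eq_one.mpr ⟨h7, h8⟩
      rw [h9, pow_one, div_eq_one] at h10
      rw [h10]
  have hcardK : p ^ τ * (p - 1) ≤ k * K.card := by
    rw [← htot]
    have h11 := Finset.card_le_mul_card_image (f := fun u : Rˣ => ((u ^ k : Rˣ) : R)) Finset.univ k (by
      intro x hx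
      obtain ⟨a, _, rfl⟩ := Finset.mem_image.mp hx
      refine le_trans ?_ (IsCyclic.card_pow_eq_one_le (α := Rˣ) (n := k) (by omega))
      apply Finset.card_le_card_of_injOn (fun u => u / a)
      · intro u hu
        have hu' : ((u ^ k : Rˣ) : R) = ((a ^ k : Rˣ) : R) := by simpa using hu
        have hu2 : u ^ k = a ^ k := Units.ext hu'
        simp [div_pow, hu2]
      · intro u _ v _ huv
        simpa using huv)
    exact h11
  -- the growth
  have hall : T K (2 * k) = Finset.univ := by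
    rcases grow K h1 hmul hinv hfree (gen_univ _) (2 * k) with h | h | h
    · exact h
    all_goals
      apply Finset.eq_univ_of_card
      apply le_antisymm (Finset.card_le_univ _)
      rw [ZMod.card]
      have hKpos : 1 ≤ K.card := Finset.card_pos.mpr ⟨1, h1⟩
      have h12 : p ^ (τ + 1) ≤ 2 * (p ^ τ * (p - 1)) := by
        have : p ≤ 2 * (p - 1) := by omega
        calc p ^ (τ + 1) = p ^ τ * p := pow_succ _ _
          _ ≤ p ^ τ * (2 * (p - 1)) := Nat.mul_le_mul_left _ this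
          _ = _ := by ring
      nlinarith [h.2]
  have hn : (n : R) ∈ T K (2 * k) := by rw [hall]; exact Finset.mem_univ _
  obtain ⟨r, hr, hrn⟩ := T_rep K k hk (fun r => ¬ p ∣ r) (fun r => (r : R)) (by simp) (by
    intro x hx
    obtain ⟨a, rfl⟩ := (hKmem x).mp hx
    refine ⟨(a : R).val, ?_, ?_⟩
    · intro hd
      have h13 := ZMod.val_coe_unit_coprime a
      have h14 : Nat.Coprime (a : R).val p := Nat.Coprime.coprime_dvd_right (dvd_pow_self p (by omega)) h13
      have h15 := Nat.dvd_gcd hd (dvd_refl p)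
      rw [h14] at h15
      exact hp.one_lt.ne' (Nat.dvd_one.mp h15)
    · change (((a : R).val : ℕ) : R) ^ k = _
      rw [ZMod.natCast_zmod_val, Units.val_pow_eq_pow_val]) (2 * k) n hn
  refine ⟨r, hr, ?_⟩
  rw [← ZMod.natCast_eq_natCast_iff]
  push_cast
  exact hrn

end Pool.Agent.V5helper17.WQ
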